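import Mathlib
import Pool.Agent.H964.DP.Stm

/-! # Project DP (helper964): task VAR, variance of the block statistic -/

set_option autoImplicit false

open MeasureTheory ProbabilityTheory Filter Finset

namespace Pool.Agent.H271.DP

open Pool.Agent.H964.DP

/-- chains are measurable functions of the environment -/
lemma Ch_meas {Ω : Type*} (mΩ : MeasurableSpace Ω) (d : V → ℝ) : ∀ (n : ℕ) (ξ : ℕ → V → Ω → ℝ),
    (∀ i < n, ∀ y, Measurable[mΩ] (ξ i y)) → ∀ (k : ℕ) (x : V),
      Measurable[mΩ] (fun w => Ch d n (fun i y => ξ i y w) k x) := by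
  intro n
  induction n with
  | zero =>
    intro ξ _ k x
    simp only [Ch]
    exact @measurable_const _ _ _ mΩ _
  | succ n ih =>
    intro ξ hξ k x
    have h1 : ∀ k x, Measurable[mΩ] (fun w => Ch d n (fun i y => ξ (i + 1) y w) k x) := by
      intro k x
      exact ih (fun i => ξ (i + 1)) (fun i hi y => hξ (i + 1) (by omega) y) k x
    have h0 : ∀ y, Measurable[mΩ] (ξ 0 y) := fun y => hξ 0 (by omega) y
    simp only [Ch, avg]
    refine Measurable.div_const (Finset.measurable_sum _ (fun e _ => ?_)) _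
    refine Measurable.const_mul (Measurable.add (h1 _ _) (Measurable.mul (h0 _) ?_)) _
    by_cases hk : k = 0
    · simp only [hk, if_true]
      exact @measurable_const _ _ _ mΩ _
    · simp only [hk, if_false]
      exact h1 _ _

section

variable {S : Type} [mS : MeasurableSpace S]

/-- the sigma-algebra generated by the slices with index in `I` -/
abbrev sg (S : Type) [mS : MeasurableSpace S] (I : Set ℕ) : MeasurableSpace (ℕ → S) :=
  ⨆ i ∈ I, MeasurableSpace.comap (fun w : ℕ → S => w i) mS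

lemma sg_le (I : Set ℕ) : sg S I ≤ MeasurableSpace.pi := by
  unfold sg
  refine iSup₂_le (fun i _ => ?_)
  exact (measurable_pi_apply i).comap_le

lemma sg_mono {I J : Set ℕ} (h : I ⊆ J) : sg S I ≤ sg S J := by
  unfold sg
  exact biSup_mono h

lemma sg_coord {I : Set ℕ} {i : ℕ} (hi : i ∈ I) : Measurable[sg S I] (fun w : ℕ → S => w i) := by
  have h1 : MeasurableSpace.comap (fun w : ℕ → S => w i) mS ≤ sg S I := by
    unfold sg
    exact le_biSup (fun i => MeasurableSpace.comap (fun w : ℕ → S => w i) mS) hi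
  exact (comap_measurable (fun w : ℕ → S => w i)).mono h1 le_rfl

lemma sg_indep (ν : ℕ → Measure S) [∀ k, IsProbabilityMeasure (ν k)] {I J : Set ℕ}
    (hIJ : Disjoint I J) : Indep (sg S I) (sg S J) (Measure.infinitePi ν) := by
  have h1 : iIndepFun (fun (i : ℕ) (w : ℕ → S) => w i) (Measure.infinitePi ν) :=
    iIndepFun_infinitePi (X := fun _ s => s) (fun _ => measurable_id)
  rw [iIndepFun_iff_iIndep] at h1
  exact indep_iSup_of_disjoint (fun i => (measurable_pi_apply i).comap_le) h1 hIJ

lemma sg_indepFun (ν : ℕ → Measure S) [∀ k, IsProbabilityMeasure (ν k)] {I J : Set ℕ}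
    (hIJ : Disjoint I J) {f g : (ℕ → S) → ℝ} (hf : Measurable[sg S I] f) (hg : Measurable[sg S J] g) :
    IndepFun f g (Measure.infinitePi ν) := by
  rw [IndepFun_iff_Indep]
  exact indep_of_indep_of_le_left (indep_of_indep_of_le_right (sg_indep ν hIJ) hg.comap_le) hf.comap_le

lemma sg_int_mul (ν : ℕ → Measure S) [∀ k, IsProbabilityMeasure (ν k)] {I J : Set ℕ}
    (hIJ : Disjoint I J) {f g : (ℕ → S) → ℝ} (hf : Measurable[sg S I] f) (hg : Measurable[sg S J] g) :
    ∫ w, f w * g w ∂(Measure.infinitePi ν) =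
      (∫ w, f w ∂(Measure.infinitePi ν)) * ∫ w, g w ∂(Measure.infinitePi ν) := by
  have h := sg_indepFun ν hIJ hf hg
  exact h.integral_fun_mul_eq_mul_integral (hf.mono (sg_le I) le_rfl).aestronglyMeasurable
    (hg.mono (sg_le J) le_rfl).aestronglyMeasurable

lemma sg_memLp_mul (ν : ℕ → Measure S) [∀ k, IsProbabilityMeasure (ν k)] {I J : Set ℕ}
    (hIJ : Disjoint I J) {f g : (ℕ → S) → ℝ} (hf : Measurable[sg S I] f) (hg : Measurable[sg S J] g)
    (hf2 : MemLp f 2 (Measure.infinitePi ν)) (hg2 : MemLp g 2 (Measure.infinitePi ν)) :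
    MemLp (fun w => f w * g w) 2 (Measure.infinitePi ν) := by
  have hfm : Measurable f := hf.mono (sg_le I) le_rfl
  have hgm : Measurable g := hg.mono (sg_le J) le_rfl
  refine (memLp_two_iff_integrable_sq (f := fun w => f w * g w) (hfm.mul hgm).aestronglyMeasurable).2 ?_
  rw [memLp_two_iff_integrable_sq hfm.aestronglyMeasurable] at hf2
  rw [memLp_two_iff_integrable_sq hgm.aestronglyMeasurable] at hg2
  have h := sg_indepFun ν hIJ (hf.pow_const 2) (hg.pow_const 2)
  have h3 := h.integrable_mul hf2 hg2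
  refine h3.congr (Filter.Eventually.of_forall (fun w => ?_))
  simp only [Pi.mul_apply]
  ring

/-- the law of the slices from `t` on -/
lemma map_shift (ν : ℕ → Measure S) [∀ k, IsProbabilityMeasure (ν k)] (t : ℕ) :
    (Measure.infinitePi ν).map (fun w i => w (t + i)) = Measure.infinitePi (fun i => ν (t + i)) := by
  have h1 : iIndepFun (fun (i : ℕ) (w : ℕ → S) => w i) (Measure.infinitePi ν) :=
    iIndepFun_infinitePi (X := fun _ s => s) (fun _ => measurable_id)
  have h2 : iIndepFun (fun (i : ℕ) (w : ℕ → S) => w (t + i)) (Measure.infinitePi ν) :=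
    h1.precomp (g := fun i => t + i) (fun a b hab => by simpa using hab)
  rw [iIndepFun_iff_map_fun_eq_infinitePi_map (fun i => measurable_pi_apply _)] at h2
  rw [h2]
  congr 1
  funext i
  exact Measure.infinitePi_map_eval ν (t + i)

/-- expansion of the second moment of a finite sum -/
lemma int_sum_sq {Ω ι : Type*} [MeasurableSpace Ω] (P : Measure Ω) (B : Finset ι) (F : ι → Ω → ℝ)
    (hF : ∀ t ∈ B, MemLp (F t) 2 P) :
    ∫ w, (∑ t ∈ B, F t w) ^ 2 ∂P = ∑ s ∈ B, ∑ t ∈ B, ∫ w, F s w * F t w ∂P := by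
  have h1 : ∀ w, (∑ t ∈ B, F t w) ^ 2 = ∑ s ∈ B, ∑ t ∈ B, F s w * F t w := by
    intro w
    rw [sq, Finset.sum_mul_sum]
  simp_rw [h1]
  have h2 : ∀ s ∈ B, ∀ t ∈ B, Integrable (fun w => F s w * F t w) P := by
    intro s hs t ht
    exact MemLp.integrable_mul (hF s hs) (hF t ht)
  rw [integral_finsetSum _ (fun s hs => integrable_finsetSum _ (fun t ht => h2 s hs t ht))]
  exact Finset.sum_congr rfl (fun s hs => integral_finsetSum _ (fun t ht => h2 s hs t ht))

/-- sums over a band of width `2 u + 1` -/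
lemma band_sum (T u : ℕ) (K : ℕ → ℕ → ℝ) (e : ℕ → ℝ) (he : ∀ t < T, 0 ≤ e t)
    (h0 : ∀ s < T, ∀ t < T, s + u < t → K s t = 0) (h0' : ∀ s < T, ∀ t < T, t + u < s → K s t = 0)
    (h1 : ∀ s < T, ∀ t < T, K s t ≤ (e s + e t) / 2) :
    ∑ s ∈ range T, ∑ t ∈ range T, K s t ≤ (2 * u + 1) * ∑ t ∈ range T, e t := by
  have hcard : ∀ s : ℕ, (((range T).filter (fun t => s ≤ t + u ∧ t ≤ s + u)).card : ℝ) ≤ 2 * u + 1 := by
    intro s
    have h2 : ((range T).filter (fun t => s ≤ t + u ∧ t ≤ s + u)).card ≤ (Finset.Icc (s - u) (s + u)).card := by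
      refine Finset.card_le_card (fun t ht => ?_)
      rw [mem_filter] at ht
      rw [Finset.mem_Icc]
      omega
    rw [Nat.card_Icc] at h2
    have h3 : s + u + 1 - (s - u) ≤ 2 * u + 1 := by omega
    exact_mod_cast h2.trans h3
  have hA : ∑ s ∈ range T, ∑ t ∈ range T, (if s ≤ t + u ∧ t ≤ s + u then e s / 2 else 0) ≤
      (2 * u + 1) * ∑ t ∈ range T, e t / 2 := by
    rw [Finset.mul_sum]
    refine Finset.sum_le_sum (fun s hs => ?_)
    rw [← Finset.sum_filter, Finset.sum_const, nsmul_eq_mul]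
    exact mul_le_mul_of_nonneg_right (hcard s) (by have := he s (mem_range.1 hs); positivity)
  have hB : ∑ s ∈ range T, ∑ t ∈ range T, (if s ≤ t + u ∧ t ≤ s + u then e t / 2 else 0) ≤
      (2 * u + 1) * ∑ t ∈ range T, e t / 2 := by
    rw [Finset.sum_comm]
    refine le_trans (le_of_eq ?_) hA
    refine Finset.sum_congr rfl (fun s _ => Finset.sum_congr rfl (fun t _ => ?_))
    by_cases h : s ≤ t + u ∧ t ≤ s + u
    · rw [if_pos h, if_pos ⟨h.2, h.1⟩]
    · rw [if_neg h, if_neg (fun h' => h ⟨h'.2, h'.1⟩)]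
  have hC : ∑ s ∈ range T, ∑ t ∈ range T, K s t ≤
      ∑ s ∈ range T, ∑ t ∈ range T, (if s ≤ t + u ∧ t ≤ s + u then e s / 2 else 0) +
      ∑ s ∈ range T, ∑ t ∈ range T, (if s ≤ t + u ∧ t ≤ s + u then e t / 2 else 0) := by
    rw [← Finset.sum_add_distrib]
    refine Finset.sum_le_sum (fun s hs => ?_)
    rw [← Finset.sum_add_distrib]
    refine Finset.sum_le_sum (fun t ht => ?_)
    rw [mem_range] at hs ht
    by_cases h : s ≤ t + u ∧ t ≤ s + u
    · rw [if_pos h, if_pos h]
      have := h1 s hs t ht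
      linarith
    · rw [if_neg h, if_neg h]
      by_cases h2 : s ≤ t + u
      · rw [h0 s hs t ht (by by_contra h3; exact h ⟨h2, by omega⟩)]
        simp
      · rw [h0' s hs t ht (by omega)]
        simp
  have hD : ∑ t ∈ range T, e t / 2 = (∑ t ∈ range T, e t) / 2 := by rw [Finset.sum_div]
  rw [hD] at hA hB
  linarith

end

/-- task VAR -/
theorem t_VAR (hSM : S_SM) : S_VAR := by
  intro S _ ν _ g m c hgm hg2 hgi hgc D hD T u q B Γ hΓ
  set P := Measure.infinitePi ν with hP
  set Vt : ℕ → V → (ℕ → S) → ℝ :=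
    fun t x w => Ch (D x) u (fun i y => g y (w (t + 1 + i))) q x with hVt
  set v : ℕ → V → ℝ := fun t x => Ch (D x) u (fun i => m (t + 1 + i)) q x with hv
  -- measurability of the chains
  have hVsg : ∀ t x, Measurable[sg S (Set.Ioc t (t + u))] (Vt t x) := by
    intro t x
    refine Ch_meas (sg S (Set.Ioc t (t + u))) (D x) u (fun i y w => g y (w (t + 1 + i)))
      (fun i hi y => ?_) q x
    exact (hgm y).comp (sg_coord (by rw [Set.mem_Ioc]; omega))
  have hVm : ∀ t x, Measurable (Vt t x) := fun t x => (hVsg t x).mono (sg_le _) le_rfl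
  have hVall : ∀ t x, MemLp (Vt t x) 2 P ∧ ∫ w, Vt t x w ∂P = v t x := by
    intro t x
    have h1 := ((hSM S (fun i => ν (t + 1 + i)) g (fun i => m (t + 1 + i)) c hgm
      (fun k x => hg2 _ x) (fun k x => hgi _ x) (fun k x y => hgc _ x y) (D x) (D x)
      (hD x) (hD x)).1 u q x)
    obtain ⟨h2, h3, h4⟩ := h1
    have hsh : Measurable (fun (w : ℕ → S) i => w (t + 1 + i)) :=
      measurable_pi_lambda _ (fun i => measurable_pi_apply _)
    rw [← map_shift ν (t + 1)] at h3 h4
    constructor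
    · exact (memLp_map_measure_iff h3.aestronglyMeasurable hsh.aemeasurable).1 h3
    · rw [integral_map hsh.aemeasurable h3.aestronglyMeasurable] at h4
      exact h4
  -- coordinates
  have hGsg : ∀ t x, Measurable[sg S {t}] (fun w : ℕ → S => g x (w t)) := by
    intro t x
    exact (hgm x).comp (sg_coord rfl)
  have hmap : ∀ t, P.map (fun w => w t) = ν t := fun t => Measure.infinitePi_map_eval ν t
  have hint : ∀ t (f : S → ℝ), Measurable f → ∫ w, f (w t) ∂P = ∫ s, f s ∂(ν t) := by
    intro t f hf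
    rw [← hmap t, integral_map (measurable_pi_apply t).aemeasurable hf.aestronglyMeasurable]
  have hG2 : ∀ t x, MemLp (fun w : ℕ → S => g x (w t)) 2 P := by
    intro t x
    have h := hg2 t x
    rw [← hmap t] at h
    exact (memLp_map_measure_iff h.aestronglyMeasurable (measurable_pi_apply t).aemeasurable).1 h
  have hGi : ∀ t x, ∫ w, g x (w t) ∂P = m t x := by
    intro t x
    rw [hint t _ (hgm x)]
    exact hgi t x
  have hGc : ∀ t x y, ∫ w, g x (w t) * g y (w t) ∂P = c x y + m t x * m t y := by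
    intro t x y
    rw [hint t (fun s => g x s * g y s) ((hgm x).mul (hgm y))]
    exact hgc t x y
  -- centred coordinates
  set G : ℕ → V → (ℕ → S) → ℝ := fun t x w => g x (w t) - m t x with hG
  have hGsg' : ∀ t x, Measurable[sg S {t}] (G t x) := fun t x => (hGsg t x).sub_const _
  have hGm' : ∀ t x, Measurable (G t x) := fun t x => (hGsg' t x).mono (sg_le _) le_rfl
  have hG2' : ∀ t x, MemLp (G t x) 2 P := fun t x => (hG2 t x).sub (memLp_const _)
  have hGi' : ∀ t x, ∫ w, G t x w ∂P = 0 := by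
    intro t x
    rw [integral_sub ((hG2 t x).integrable (by norm_num)) (integrable_const _), hGi]
    simp
  have hGc' : ∀ t x y, ∫ w, G t x w * G t y w ∂P = c x y := by
    intro t x y
    have e1 : ∀ w : ℕ → S, G t x w * G t y w =
        (g x (w t) * g y (w t) - m t y * g x (w t)) - (m t x * g y (w t) - m t x * m t y) := by
      intro w
      simp only [hG]
      ring
    simp_rw [e1]
    have i1 : Integrable (fun w : ℕ → S => g x (w t) * g y (w t)) P :=
      MemLp.integrable_mul (hG2 t x) (hG2 t y)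
    have i2 : Integrable (fun w : ℕ → S => m t y * g x (w t)) P :=
      ((hG2 t x).integrable (by norm_num)).const_mul _
    have i3 : Integrable (fun w : ℕ → S => m t x * g y (w t)) P :=
      ((hG2 t y).integrable (by norm_num)).const_mul _
    have i12 : Integrable (fun w : ℕ → S => g x (w t) * g y (w t) - m t y * g x (w t)) P := i1.sub i2
    have i34 : Integrable (fun w : ℕ → S => m t x * g y (w t) - m t x * m t y) P :=
      i3.sub (integrable_const _)
    rw [integral_sub i12 i34, integral_sub i1 i2,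
      integral_sub i3 (integrable_const _), integral_const_mul, integral_const_mul, hGc, hGi, hGi]
    simp
    ring
  have hdisj : ∀ t, Disjoint ({t} : Set ℕ) (Set.Ioc t (t + u)) := by
    intro t
    rw [Set.disjoint_singleton_left, Set.mem_Ioc]
    omega
  -- products
  have hP2 : ∀ t x, MemLp (fun w => g x (w t) * Vt t x w) 2 P := fun t x =>
    sg_memLp_mul ν (hdisj t) (hGsg t x) (hVsg t x) (hG2 t x) (hVall t x).1
  have hP2' : ∀ t x, MemLp (fun w => G t x w * Vt t x w) 2 P := fun t x =>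
    sg_memLp_mul ν (hdisj t) (hGsg' t x) (hVsg t x) (hG2' t x) (hVall t x).1
  have hPi : ∀ t x, ∫ w, g x (w t) * Vt t x w ∂P = m t x * v t x := by
    intro t x
    rw [sg_int_mul ν (hdisj t) (hGsg t x) (hVsg t x), hGi, (hVall t x).2]
  -- the parts of the statistic
  set A : ℕ → (ℕ → S) → ℝ := fun t w => ∑ x ∈ B, G t x w * Vt t x w with hA
  set Z : ℕ → (ℕ → S) → ℝ := fun t w => ∑ x ∈ B, m t x * Vt t x w with hZ
  set z : ℕ → ℝ := fun t => ∑ x ∈ B, m t x * v t x with hz
  have hA2 : ∀ t, MemLp (A t) 2 P := fun t => memLp_finsetSum _ (fun x _ => hP2' t x)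
  have hZ2 : ∀ t, MemLp (Z t) 2 P := fun t =>
    memLp_finsetSum _ (fun x _ => (hVall t x).1.const_mul (m t x))
  have hAsg : ∀ t, Measurable[sg S (Set.Ici t)] (A t) := by
    intro t
    refine Finset.measurable_sum _ (fun x _ => ?_)
    refine Measurable.mul ?_ ?_
    · exact (hGsg' t x).mono (sg_mono (by intro i hi; rw [Set.mem_singleton_iff] at hi; rw [Set.mem_Ici]; omega)) le_rfl
    · exact (hVsg t x).mono (sg_mono (by intro i hi; rw [Set.mem_Ioc] at hi; rw [Set.mem_Ici]; omega)) le_rfl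
  have hZsg : ∀ t, Measurable[sg S (Set.Ioc t (t + u))] (Z t) := by
    intro t
    exact Finset.measurable_sum _ (fun x _ => (hVsg t x).const_mul _)
  have hZi : ∀ t, ∫ w, Z t w ∂P = z t := by
    intro t
    rw [integral_finsetSum _ (fun x _ => ((hVall t x).1.integrable (by norm_num)).const_mul _)]
    exact Finset.sum_congr rfl (fun x _ => by rw [integral_const_mul, (hVall t x).2])
  -- orthogonality
  have hAA0 : ∀ s t, s < t → ∫ w, A s w * A t w ∂P = 0 := by
    intro s t hst
    have e1 : ∀ w, A s w * A t w = ∑ x ∈ B, (G s x w * Vt s x w) * A t w := by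
      intro w
      simp only [hA]
      rw [Finset.sum_mul]
    simp_rw [e1]
    have hi : ∀ x ∈ B, Integrable (fun w => G s x w * Vt s x w * A t w) P :=
      fun x _ => MemLp.integrable_mul (hP2' s x) (hA2 t)
    rw [integral_finsetSum _ hi]
    refine Finset.sum_eq_zero (fun x _ => ?_)
    have hd : Disjoint ({s} : Set ℕ) (Set.Ioi s) := by
      rw [Set.disjoint_singleton_left, Set.mem_Ioi]
      omega
    have hm : Measurable[sg S (Set.Ioi s)] (fun w => Vt s x w * A t w) := by
      refine Measurable.mul ?_ ?_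
      · exact (hVsg s x).mono (sg_mono (by intro i hi; rw [Set.mem_Ioc] at hi; rw [Set.mem_Ioi]; omega)) le_rfl
      · exact (hAsg t).mono (sg_mono (by intro i hi; rw [Set.mem_Ici] at hi; rw [Set.mem_Ioi]; omega)) le_rfl
    have h5 := sg_int_mul ν hd (hGsg' s x) hm
    simp_rw [mul_assoc]
    rw [h5, hGi', zero_mul]
  have hAA1 : ∀ t, ∫ w, A t w * A t w ∂P =
      ∑ x ∈ B, ∑ y ∈ B, c x y * ∫ w, Vt t x w * Vt t y w ∂P := by
    intro t
    have e1 : ∀ w, A t w * A t w = (∑ x ∈ B, G t x w * Vt t x w) ^ 2 := by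
      intro w
      simp only [hA]
      rw [sq]
    simp_rw [e1]
    rw [int_sum_sq P B (fun x w => G t x w * Vt t x w) (fun x _ => hP2' t x)]
    refine Finset.sum_congr rfl (fun x _ => Finset.sum_congr rfl (fun y _ => ?_))
    have e2 : ∀ w, G t x w * Vt t x w * (G t y w * Vt t y w) =
        (G t x w * G t y w) * (Vt t x w * Vt t y w) := by
      intro w
      ring
    simp_rw [e2]
    have h5 := sg_int_mul ν (hdisj t) (f := fun w => G t x w * G t y w)
      (g := fun w => Vt t x w * Vt t y w) ((hGsg' t x).mul (hGsg' t y)) ((hVsg t x).mul (hVsg t y))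
    rw [h5, hGc']
  have hZZ : ∀ t, ∫ w, Z t w * Z t w ∂P =
      ∑ x ∈ B, ∑ y ∈ B, (m t x * m t y) * ∫ w, Vt t x w * Vt t y w ∂P := by
    intro t
    have e1 : ∀ w, Z t w * Z t w = (∑ x ∈ B, m t x * Vt t x w) ^ 2 := by
      intro w
      simp only [hZ]
      rw [sq]
    simp_rw [e1]
    rw [int_sum_sq P B (fun x w => m t x * Vt t x w) (fun x _ => (hVall t x).1.const_mul _)]
    refine Finset.sum_congr rfl (fun x _ => Finset.sum_congr rfl (fun y _ => ?_))
    have e2 : ∀ w, m t x * Vt t x w * (m t y * Vt t y w) = (m t x * m t y) * (Vt t x w * Vt t y w) := by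
      intro w
      ring
    simp_rw [e2]
    rw [integral_const_mul]
  -- centred Z
  set Y : ℕ → (ℕ → S) → ℝ := fun t w => Z t w - z t with hY
  have hY2 : ∀ t, MemLp (Y t) 2 P := fun t => (hZ2 t).sub (memLp_const _)
  have hYsg : ∀ t, Measurable[sg S (Set.Ioc t (t + u))] (Y t) := fun t => (hZsg t).sub_const _
  have hYi : ∀ t, ∫ w, Y t w ∂P = 0 := by
    intro t
    rw [integral_sub ((hZ2 t).integrable (by norm_num)) (integrable_const _), hZi]
    simp
  have hYY0 : ∀ s t, s + u < t → ∫ w, Y s w * Y t w ∂P = 0 := by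
    intro s t hst
    have hd : Disjoint (Set.Ioc s (s + u)) (Set.Ioc t (t + u)) := by
      rw [Set.disjoint_left]
      intro i hi hi'
      rw [Set.mem_Ioc] at hi hi'
      omega
    rw [sg_int_mul ν hd (hYsg s) (hYsg t), hYi, zero_mul]
  have hYY0' : ∀ s t, t + u < s → ∫ w, Y s w * Y t w ∂P = 0 := by
    intro s t hst
    have := hYY0 t s hst
    rw [← this]
    exact integral_congr_ae (Filter.Eventually.of_forall (fun w => mul_comm _ _))
  set e : ℕ → ℝ := fun t => ∫ w, Z t w * Z t w ∂P with he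
  have he0 : ∀ t, 0 ≤ e t := fun t => integral_nonneg (fun w => mul_self_nonneg _)
  have hYe : ∀ t, ∫ w, Y t w * Y t w ∂P ≤ e t := by
    intro t
    have e1 : ∀ w, Y t w * Y t w = Z t w * Z t w - (2 * z t * Z t w - z t * z t) := by
      intro w
      simp only [hY]
      ring
    simp_rw [e1]
    have i1 : Integrable (fun w => Z t w * Z t w) P := MemLp.integrable_mul (hZ2 t) (hZ2 t)
    have i2 : Integrable (fun w => 2 * z t * Z t w) P := ((hZ2 t).integrable (by norm_num)).const_mul _
    have i3 : Integrable (fun w => 2 * z t * Z t w - z t * z t) P := i2.sub (integrable_const _)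
    rw [integral_sub i1 i3, integral_sub i2 (integrable_const _), integral_const_mul, hZi]
    simp only [integral_const, smul_eq_mul, probReal_univ, one_mul, he]
    nlinarith [mul_self_nonneg (z t)]
  have hYY1 : ∀ s t, ∫ w, Y s w * Y t w ∂P ≤ (e s + e t) / 2 := by
    intro s t
    have i1 : Integrable (fun w => Y s w * Y t w) P := MemLp.integrable_mul (hY2 s) (hY2 t)
    have i2 : Integrable (fun w => Y s w * Y s w) P := MemLp.integrable_mul (hY2 s) (hY2 s)
    have i3 : Integrable (fun w => Y t w * Y t w) P := MemLp.integrable_mul (hY2 t) (hY2 t)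
    have h1 : ∫ w, Y s w * Y t w ∂P ≤ ∫ w, (Y s w * Y s w + Y t w * Y t w) / 2 ∂P := by
      refine integral_mono i1 ((i2.add i3).div_const 2) (fun w => ?_)
      have := sq_nonneg (Y s w - Y t w)
      simp only
      nlinarith
    rw [integral_div, integral_add i2 i3] at h1
    have h2 := hYe s
    have h3 := hYe t
    linarith
  -- second moments of the two parts
  have hAsum : ∫ w, (∑ t ∈ range T, A t w) ^ 2 ∂P = ∑ t ∈ range T, ∫ w, A t w * A t w ∂P := by
    rw [int_sum_sq P (range T) A (fun t _ => hA2 t)]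
    refine Finset.sum_congr rfl (fun s hs => ?_)
    rw [Finset.sum_eq_single s]
    · intro t _ hts
      rcases lt_or_gt_of_ne hts with h | h
      · rw [← hAA0 t s h]
        exact integral_congr_ae (Filter.Eventually.of_forall (fun w => mul_comm _ _))
      · exact hAA0 s t h
    · intro h
      exact absurd hs h
  have hYsum : ∫ w, (∑ t ∈ range T, Y t w) ^ 2 ∂P ≤ (2 * u + 1) * ∑ t ∈ range T, e t := by
    rw [int_sum_sq P (range T) Y (fun t _ => hY2 t)]
    exact band_sum T u (fun s t => ∫ w, Y s w * Y t w ∂P) e (fun t _ => he0 t)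
      (fun s _ t _ h => hYY0 s t h) (fun s _ t _ h => hYY0' s t h) (fun s _ t _ => hYY1 s t)
  have hAb : ∀ t ∈ range T, ∫ w, A t w * A t w ∂P ≤ ∑ x ∈ B, ∑ y ∈ B, |c x y| * Γ t x y := by
    intro t ht
    rw [hAA1]
    refine Finset.sum_le_sum (fun x hx => Finset.sum_le_sum (fun y hy => ?_))
    refine (le_abs_self _).trans ?_
    rw [abs_mul]
    exact mul_le_mul_of_nonneg_left (hΓ t (mem_range.1 ht) x hx y hy) (abs_nonneg _)
  have heb : ∀ t ∈ range T, e t ≤ ∑ x ∈ B, ∑ y ∈ B, |m t x| * |m t y| * Γ t x y := by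
    intro t ht
    simp only [he]
    rw [hZZ]
    refine Finset.sum_le_sum (fun x hx => Finset.sum_le_sum (fun y hy => ?_))
    refine (le_abs_self _).trans ?_
    rw [abs_mul, abs_mul]
    exact mul_le_mul_of_nonneg_left (hΓ t (mem_range.1 ht) x hx y hy) (by positivity)
  -- conclusion
  have hX : ∀ w, XX g D T u q B w = ∑ t ∈ range T, ∑ x ∈ B, g x (w t) * Vt t x w := fun w => rfl
  have hgwm : ∀ t x, Measurable (fun w : ℕ → S => g x (w t)) := fun t x =>
    (hgm x).comp (measurable_pi_apply t)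
  refine ⟨?_, ?_, ?_, ?_⟩
  · refine Finset.measurable_sum _ (fun t _ => Finset.measurable_sum _ (fun x _ => ?_))
    exact (hgwm t x).mul (hVm t x)
  · exact memLp_finsetSum _ (fun t _ => memLp_finsetSum _ (fun x _ => hP2 t x))
  · simp_rw [hX]
    rw [integral_finsetSum _ (fun t _ => integrable_finsetSum _ (fun x _ =>
      (hP2 t x).integrable (by norm_num)))]
    refine Finset.sum_congr rfl (fun t _ => ?_)
    rw [integral_finsetSum _ (fun x _ => (hP2 t x).integrable (by norm_num))]
    exact Finset.sum_congr rfl (fun x _ => hPi t x)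
  · have e1 : ∀ w, XX g D T u q B w - ∑ t ∈ range T, ∑ x ∈ B, m t x * v t x =
        ∑ t ∈ range T, A t w + ∑ t ∈ range T, Y t w := by
      intro w
      rw [hX, ← Finset.sum_add_distrib, ← Finset.sum_sub_distrib]
      refine Finset.sum_congr rfl (fun t _ => ?_)
      simp only [hA, hY, hZ, hz, hG]
      rw [← Finset.sum_sub_distrib, ← Finset.sum_sub_distrib, ← Finset.sum_add_distrib]
      refine Finset.sum_congr rfl (fun x _ => ?_)
      ring
    have hSA : MemLp (fun w => ∑ t ∈ range T, A t w) 2 P := memLp_finsetSum _ (fun t _ => hA2 t)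
    have hSY : MemLp (fun w => ∑ t ∈ range T, Y t w) 2 P := memLp_finsetSum _ (fun t _ => hY2 t)
    have hSAY : MemLp (fun w => ∑ t ∈ range T, A t w + ∑ t ∈ range T, Y t w) 2 P := hSA.add hSY
    have i1 : Integrable (fun w => (∑ t ∈ range T, A t w) ^ 2) P := hSA.integrable_sq
    have i2 : Integrable (fun w => (∑ t ∈ range T, Y t w) ^ 2) P := hSY.integrable_sq
    have i3 : Integrable (fun w => (∑ t ∈ range T, A t w + ∑ t ∈ range T, Y t w) ^ 2) P :=
      hSAY.integrable_sq
    have h1 : ∫ w, (XX g D T u q B w - ∑ t ∈ range T, ∑ x ∈ B, m t x * v t x) ^ 2 ∂P ≤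
        ∫ w, (2 * (∑ t ∈ range T, A t w) ^ 2 + 2 * (∑ t ∈ range T, Y t w) ^ 2) ∂P := by
      simp_rw [e1]
      refine integral_mono i3 ((i1.const_mul 2).add (i2.const_mul 2)) (fun w => ?_)
      have := sq_nonneg (∑ t ∈ range T, A t w - ∑ t ∈ range T, Y t w)
      simp only
      nlinarith
    rw [integral_add (i1.const_mul 2) (i2.const_mul 2), integral_const_mul, integral_const_mul,
      hAsum] at h1
    have h2 : ∑ t ∈ range T, ∫ w, A t w * A t w ∂P ≤
        ∑ t ∈ range T, ∑ x ∈ B, ∑ y ∈ B, |c x y| * Γ t x y := Finset.sum_le_sum hAb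
    have h3 : ∑ t ∈ range T, e t ≤ ∑ t ∈ range T, ∑ x ∈ B, ∑ y ∈ B, |m t x| * |m t y| * Γ t x y :=
      Finset.sum_le_sum heb
    have h4 : (2 * (u : ℝ) + 1) * ∑ t ∈ range T, e t ≤
        (2 * u + 1) * ∑ t ∈ range T, ∑ x ∈ B, ∑ y ∈ B, |m t x| * |m t y| * Γ t x y :=
      mul_le_mul_of_nonneg_left h3 (by positivity)
    refine h1.trans ?_
    rw [mul_assoc 2 (2 * (u : ℝ) + 1)]
    linarith

end Pool.Agent.H271.DP
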